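import Pool.Agent.H61.Dbip.Exists
import Pool.Agent.H61.Dbip.Cover

/-!
# Fractional domatic number of bipartite graphs of large girth and minimum degree two

Let `G` be the graph which is obtained from a quasi-random list of `m` edges of type 1 and `m` edges
of type 2 on `N` branch vertices by subdividing the edges of type 1 once and those of type 2 twice
(and a few edges `g` times). Its bipartite double cover has girth at least `g` and minimum degree
`2`. In a dominating `(a:b)`-colouring of the double cover let `x i` and `y i` be the densities of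
the sets of the branch vertices with colour `i` in the two sheets. The two lifts of the edges of
type 1 give `b ≥ ∑ i ((1 - x i) ^ 2 - 2 ε)` and `b ≥ ∑ i ((1 - y i) ^ 2 - 2 ε)`, each of the two
lifts of the edges of type 2 gives `2 b ≥ ∑ i (1 - x i * y i - 2 ε)`; the sum of the four left
sides is `6 b`, and that of the right sides is at least `∑ i (4 - 2 x i - 2 y i - 8 ε)`, which is
`4 a - 4 b - 8 ε a`, since `(x i - y i) ^ 2 ≥ 0`.
-/

set_option autoImplicit false

namespace Pool.Agent.Results.MP_cc2bbb_co.BipartiteGraphs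

open Finset Filter
open Pool.Agent.H44.Dom2 Pool.Agent.H61.Dbip

/-- `φ` is a dominating `(a:b)`-colouring of `G`: every vertex gets `b` of the `a` colours, and
every colour class is dominating. -/
def IsDomColouring {V : Type} (G : SimpleGraph V) (a b : ℕ) (φ : V → Finset (Fin a)) : Prop :=
  (∀ v, (φ v).card = b) ∧ ∀ i : Fin a, ∀ v, i ∈ φ v ∨ ∃ u, G.Adj v u ∧ i ∈ φ u

/-- The fractional domatic number. -/
noncomputable def fdom {V : Type} (G : SimpleGraph V) : ℝ :=
  sSup {x : ℝ | ∃ a b : ℕ, 0 < b ∧ b ≤ a ∧ (∃ φ, IsDomColouring G a b φ) ∧ x = (a : ℝ) / b}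

open Classical in
/-- `G` has minimum degree `2` and girth at least `g`. -/
def InClass (g : ℕ) {V : Type} [Fintype V] (G : SimpleGraph V) : Prop :=
  G.minDegree = 2 ∧ (g : ℕ∞) ≤ G.egirth

/-- The infimum of the fractional domatic number over the finite bipartite graphs with minimum
degree `2` and girth at least `g`. -/
noncomputable def infBip (g : ℕ) : ℝ :=
  sInf {x : ℝ | ∃ (V : Type) (_ : Fintype V) (G : SimpleGraph V),
    G.Colorable 2 ∧ InClass g G ∧ x = fdom G}

lemma one_mem {V : Type} (G : SimpleGraph V) :
    (1 : ℝ) ∈ {x : ℝ | ∃ a b : ℕ, 0 < b ∧ b ≤ a ∧ (∃ φ, IsDomColouring G a b φ) ∧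
      x = (a : ℝ) / b} := by
  refine ⟨1, 1, one_pos, le_rfl, ⟨fun _ => univ, ?_, ?_⟩, by norm_num⟩
  · intro v; simp
  · intro i v; exact Or.inl (mem_univ _)

open Classical in
/-- The trivial bound `a ≤ 3 b` at a vertex of degree two. -/
lemma ratio_le_three {V : Type} [Fintype V] (G : SimpleGraph V) (hG : G.minDegree = 2)
    (a b : ℕ) (hb : 0 < b) (φ : V → Finset (Fin a)) (h : IsDomColouring G a b φ) :
    (a : ℝ) / b ≤ 3 := by
  have hne : Nonempty V := by
    by_contra hne
    rw [not_nonempty_iff] at hne
    rw [SimpleGraph.minDegree_of_subsingleton] at hG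
    omega
  obtain ⟨v, hv⟩ := G.exists_minimal_degree_vertex
  rw [hG] at hv
  have h1 : (univ : Finset (Fin a)) ⊆ φ v ∪ (G.neighborFinset v).biUnion φ := by
    intro i _
    rw [mem_union, mem_biUnion]
    rcases h.2 i v with h1 | ⟨u, hu, hi⟩
    · exact Or.inl h1
    · exact Or.inr ⟨u, by rw [SimpleGraph.mem_neighborFinset]; exact hu, hi⟩
  have h2 := card_le_card h1
  rw [card_univ, Fintype.card_fin] at h2
  have h3 : ((G.neighborFinset v).biUnion φ).card ≤ 2 * b := by
    refine (card_biUnion_le_card_mul _ _ b fun u _ => (h.1 u).le).trans ?_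
    rw [SimpleGraph.card_neighborFinset_eq_degree, ← hv]
  have h4 : a ≤ 3 * b := by
    have := card_union_le (φ v) ((G.neighborFinset v).biUnion φ)
    have := h.1 v
    omega
  rw [div_le_iff₀ (by exact_mod_cast hb)]
  exact_mod_cast h4

lemma bdd {V : Type} [Fintype V] (G : SimpleGraph V) (g : ℕ) (hG : InClass g G) :
    BddAbove {x : ℝ | ∃ a b : ℕ, 0 < b ∧ b ≤ a ∧ (∃ φ, IsDomColouring G a b φ) ∧
      x = (a : ℝ) / b} := by
  refine ⟨3, ?_⟩
  rintro x ⟨a, b, hb, -, ⟨φ, hφ⟩, rfl⟩
  exact ratio_le_three G hG.1 a b hb φ hφ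

lemma one_le_fdom {V : Type} [Fintype V] (G : SimpleGraph V) (g : ℕ) (hG : InClass g G) :
    1 ≤ fdom G := le_csSup (bdd G g hG) (one_mem G)

/-- The colouring inequality in the double cover. -/
theorem colouring {N m g : ℕ} (e : Fin m × Bool → Fin N × Fin N) (ε : ℝ) (hm : 0 < m)
    (hN : 0 < N)
    (h1 : ∀ A B : Finset (Fin N),
      ((A.card : ℝ) / N * ((B.card : ℝ) / N) - ε) * m ≤ cntE e false (A ×ˢ B))
    (h2 : ∀ A B : Finset (Fin N),
      (cntE e true (A ×ˢ B) : ℝ) ≤ ((A.card : ℝ) / N * ((B.card : ℝ) / N) + ε) * m)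
    (h3 : ((BadE g e).card : ℝ) ≤ ε * m)
    (a b : ℕ) (φ : SV (Fin N) (kk g e) × Bool → Finset (Fin a))
    (hφ : IsDomColouring (DC (SG (kk g e) (en e))) a b φ) :
    (2 - 4 * ε) * a ≤ 5 * b := by
  classical
  have hmR : (0 : ℝ) < m := by exact_mod_cast hm
  have hNR : (0 : ℝ) < N := by exact_mod_cast hN
  set A : Bool → Fin a → Finset (Fin N) := fun s i =>
    univ.filter fun w => i ∈ φ (.inl w, s) with hA
  -- double counting the colours of the branch vertices
  have hsumA : ∀ s, ∑ i : Fin a, ((A s i).card : ℝ) = N * b := by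
    intro s
    have h4 : ∑ i : Fin a, (A s i).card = ∑ w : Fin N, (φ (.inl w, s)).card := by
      simp only [hA, card_filter]
      rw [sum_comm]
      apply sum_congr rfl
      intro w _
      rw [← card_filter]
      congr 1
      ext i
      simp
    have h5 : ∑ i : Fin a, (A s i).card = N * b := by
      rw [h4, sum_congr rfl (fun w _ => hφ.1 (.inl w, s))]
      simp
    exact_mod_cast h5
  have hcompl : ∀ s i, ((A s i)ᶜ.card : ℝ) = N - (A s i).card := by
    intro s i
    have h4 := card_compl_add_card (A s i)
    rw [Fintype.card_fin] at h4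
    have : ((A s i)ᶜ.card : ℝ) + (A s i).card = N := by exact_mod_cast h4
    linarith
  -- bad indices
  have hbad : ∀ τ : Bool, (((univ.filter fun j : Fin m => (j, τ) ∈ BadE g e).card : ℕ) : ℝ) ≤
      ε * m := by
    intro τ
    refine le_trans ?_ h3
    have : (univ.filter fun j : Fin m => (j, τ) ∈ BadE g e).card ≤ (BadE g e).card := by
      refine card_le_card_of_injOn (fun j => (j, τ)) ?_ ?_
      · intro j hj
        exact (mem_filter.1 (mem_coe.1 hj)).2
      · intro j _ j' _ h
        simpa using h
    exact_mod_cast this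
  -- edges of type 1
  have hT1 : ∀ s, ∑ i : Fin a, (cntE e false ((A s i)ᶜ ×ˢ (A s i)ᶜ) : ℝ) ≤
      m * b + a * (ε * m) := by
    intro s
    have h4 : ∀ j : Fin m, (∑ i : Fin a,
        if e (j, false) ∈ (A s i)ᶜ ×ˢ (A s i)ᶜ then (1 : ℝ) else 0) ≤
        b + a * (if (j, false) ∈ BadE g e then (1 : ℝ) else 0) := by
      intro j
      by_cases hj : (j, false) ∈ BadE g e
      · simp only [hj, if_true]
        have : (∑ i : Fin a, if e (j, false) ∈ (A s i)ᶜ ×ˢ (A s i)ᶜ then (1 : ℝ) else 0) ≤
            ∑ i : Fin a, (1 : ℝ) := sum_le_sum fun i _ => by split_ifs <;> norm_num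
        rw [sum_const, card_univ, Fintype.card_fin, nsmul_eq_mul] at this
        have hb0 : (0 : ℝ) ≤ b := Nat.cast_nonneg _
        linarith
      · simp only [hj, if_false, mul_zero, add_zero]
        rw [← Finset.natCast_card_filter]
        have hk : kk g e (.inl (j, false)) = 1 := by simp [kk, hj]
        set x : Σ b' : (Fin m × Bool) ⊕ Fin N, Fin (kk g e b') :=
          ⟨.inl (j, false), ⟨0, by omega⟩⟩ with hx
        have h5 : (univ.filter fun i : Fin a => e (j, false) ∈ (A s i)ᶜ ×ˢ (A s i)ᶜ) ⊆
            φ (.inr x, !s) := by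
          intro i hi
          rw [mem_filter, mem_product, mem_compl, mem_compl] at hi
          have h6 : i ∉ φ (.inl (e (j, false)).1, s) := fun h => hi.2.1 (by simp [hA, h])
          have h7 : i ∉ φ (.inl (e (j, false)).2, s) := fun h => hi.2.2 (by simp [hA, h])
          rcases hφ.2 i (.inr x, !s) with h8 | ⟨⟨u, s'⟩, ⟨hu, hs'⟩, hui⟩
          · exact h8
          · exfalso
            have hss : s' = s := by
              simp only at hs'
              revert hs'
              cases s <;> cases s' <;> simp
            subst hss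
            simp only at hu
            rw [adj_iff] at hu
            rcases u with w | y
            · rcases hu with hu | hu
              · have := hu.2
                rw [this] at hui
                exact h6 hui
              · have := hu.2
                rw [this] at hui
                exact h7 hui
            · rcases hu with hu | hu
              · have h9 := hu.2
                have h10 : x.2.val = 0 := rfl
                omega
              · have h9 := hu.2
                have h10 : kk g e x.1 = kk g e y.1 := congrArg _ hu.1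
                have h11 := y.2.2
                have h12 : kk g e x.1 = 1 := hk
                omega
        have h6 := card_le_card h5
        rw [hφ.1] at h6
        exact_mod_cast h6
    have h5 : ∑ i : Fin a, (cntE e false ((A s i)ᶜ ×ˢ (A s i)ᶜ) : ℝ) =
        ∑ j : Fin m, ∑ i : Fin a,
          if e (j, false) ∈ (A s i)ᶜ ×ˢ (A s i)ᶜ then (1 : ℝ) else 0 := by
      rw [sum_comm]
      exact sum_congr rfl fun i _ => cntE_eq _ _ _
    rw [h5]
    refine (sum_le_sum fun j _ => h4 j).trans ?_
    rw [sum_add_distrib, sum_const, card_univ, Fintype.card_fin, nsmul_eq_mul, ← mul_sum]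
    have h6 := hbad false
    rw [Finset.natCast_card_filter] at h6
    have ha0 : (0 : ℝ) ≤ a := Nat.cast_nonneg _
    have := mul_le_mul_of_nonneg_left h6 ha0
    linarith
  -- edges of type 2
  have hT2 : ∀ s, ∑ i : Fin a, ((m : ℝ) - cntE e true (A s i ×ˢ A (!s) i)) ≤
      2 * (m * b) + a * (ε * m) := by
    intro s
    have h4 : ∀ j : Fin m, (∑ i : Fin a,
        (1 - if e (j, true) ∈ A s i ×ˢ A (!s) i then (1 : ℝ) else 0)) ≤
        2 * b + a * (if (j, true) ∈ BadE g e then (1 : ℝ) else 0) := by
      intro j
      by_cases hj : (j, true) ∈ BadE g e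
      · simp only [hj, if_true]
        have : (∑ i : Fin a, (1 - if e (j, true) ∈ A s i ×ˢ A (!s) i then (1 : ℝ) else 0)) ≤
            ∑ i : Fin a, (1 : ℝ) := sum_le_sum fun i _ => by split_ifs <;> norm_num
        rw [sum_const, card_univ, Fintype.card_fin, nsmul_eq_mul] at this
        have hb0 : (0 : ℝ) ≤ b := Nat.cast_nonneg _
        linarith
      · simp only [hj, if_false, mul_zero, add_zero]
        have h5 : ∀ i : Fin a, (1 - if e (j, true) ∈ A s i ×ˢ A (!s) i then (1 : ℝ) else 0) =
            if ¬ (e (j, true) ∈ A s i ×ˢ A (!s) i) then (1 : ℝ) else 0 := by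
          intro i
          by_cases h : e (j, true) ∈ A s i ×ˢ A (!s) i
          · rw [if_pos h, if_neg (not_not_intro h)]; norm_num
          · rw [if_neg h, if_pos h]; norm_num
        rw [sum_congr rfl fun i _ => h5 i, ← Finset.natCast_card_filter]
        have hk : kk g e (.inl (j, true)) = 2 := by simp [kk, hj]
        set x : Σ b' : (Fin m × Bool) ⊕ Fin N, Fin (kk g e b') :=
          ⟨.inl (j, true), ⟨0, by omega⟩⟩ with hx
        set y : Σ b' : (Fin m × Bool) ⊕ Fin N, Fin (kk g e b') :=
          ⟨.inl (j, true), ⟨1, by omega⟩⟩ with hy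
        have h6 : (univ.filter fun i : Fin a => ¬ (e (j, true) ∈ A s i ×ˢ A (!s) i)) ⊆
            φ (.inr x, !s) ∪ φ (.inr y, s) := by
          intro i hi
          rw [mem_filter, mem_product] at hi
          rw [mem_union]
          by_contra hcon
          push Not at hcon
          apply hi.2
          constructor
          · rcases hφ.2 i (.inr x, !s) with h8 | ⟨⟨u, s'⟩, ⟨hu, hs'⟩, hui⟩
            · exact absurd h8 hcon.1
            · have hss : s' = s := by
                simp only at hs'
                revert hs'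
                cases s <;> cases s' <;> simp
              subst hss
              simp only at hu
              rw [adj_iff] at hu
              rcases u with w | z
              · rcases hu with hu | hu
                · have := hu.2
                  rw [this] at hui
                  simp only [hA, mem_filter, mem_univ, true_and]
                  exact hui
                · have h9 := hu.1
                  have h10 : x.2.val = 0 := rfl
                  have h11 : kk g e x.1 = 2 := hk
                  omega
              · rcases hu with hu | hu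
                · have h9 := hu.2
                  have h10 : x.2.val = 0 := rfl
                  omega
                · have h9 : z = y := sig_ext hu.1.symm (by
                    have := hu.2
                    have h10 : x.2.val = 0 := rfl
                    have h11 : y.2.val = 1 := rfl
                    omega)
                  rw [h9] at hui
                  exact absurd hui hcon.2
          · rcases hφ.2 i (.inr y, s) with h8 | ⟨⟨u, s'⟩, ⟨hu, hs'⟩, hui⟩
            · exact absurd h8 hcon.2
            · have hss : s' = !s := by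
                simp only at hs'
                revert hs'
                cases s <;> cases s' <;> simp
              subst hss
              simp only at hu
              rw [adj_iff] at hu
              rcases u with w | z
              · rcases hu with hu | hu
                · have h9 := hu.1
                  have h10 : y.2.val = 1 := rfl
                  omega
                · have := hu.2
                  rw [this] at hui
                  simp only [hA, mem_filter, mem_univ, true_and]
                  exact hui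
              · rcases hu with hu | hu
                · have h9 : z = x := sig_ext hu.1.symm (by
                    have := hu.2
                    have h10 : x.2.val = 0 := rfl
                    have h11 : y.2.val = 1 := rfl
                    omega)
                  rw [h9] at hui
                  exact absurd hui hcon.1
                · have h9 := hu.2
                  have h10 : kk g e y.1 = kk g e z.1 := congrArg _ hu.1
                  have h11 := z.2.2
                  have h12 : kk g e y.1 = 2 := hk
                  have h13 : y.2.val = 1 := rfl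
                  omega
        have h7 := card_le_card h6
        have h8 := card_union_le (φ (.inr x, !s)) (φ (.inr y, s))
        rw [hφ.1, hφ.1] at h8
        have h9 : (univ.filter fun i : Fin a =>
            ¬ (e (j, true) ∈ A s i ×ˢ A (!s) i)).card ≤ 2 * b := by
          omega
        exact_mod_cast h9
    have h5 : ∑ i : Fin a, ((m : ℝ) - cntE e true (A s i ×ˢ A (!s) i)) =
        ∑ j : Fin m, ∑ i : Fin a,
          (1 - if e (j, true) ∈ A s i ×ˢ A (!s) i then (1 : ℝ) else 0) := by
      rw [sum_comm]
      apply sum_congr rfl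
      intro i _
      rw [cntE_eq, sum_sub_distrib]
      simp
    rw [h5]
    refine (sum_le_sum fun j _ => h4 j).trans ?_
    rw [sum_add_distrib, sum_const, card_univ, Fintype.card_fin, nsmul_eq_mul, ← mul_sum]
    have h6 := hbad true
    rw [Finset.natCast_card_filter] at h6
    have ha0 : (0 : ℝ) ≤ a := Nat.cast_nonneg _
    have := mul_le_mul_of_nonneg_left h6 ha0
    linarith
  -- combine
  have hT : ∀ i : Fin a,
      (4 - 2 * ((A false i).card : ℝ) / N - 2 * ((A true i).card : ℝ) / N - 4 * ε) * m ≤
      (cntE e false ((A false i)ᶜ ×ˢ (A false i)ᶜ) : ℝ) +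
      cntE e false ((A true i)ᶜ ×ˢ (A true i)ᶜ) +
      ((m : ℝ) - cntE e true (A false i ×ˢ A (!false) i)) +
      ((m : ℝ) - cntE e true (A true i ×ˢ A (!true) i)) := by
    intro i
    have h4 := h1 (A false i)ᶜ (A false i)ᶜ
    have h4' := h1 (A true i)ᶜ (A true i)ᶜ
    have h5 := h2 (A false i) (A (!false) i)
    have h5' := h2 (A true i) (A (!true) i)
    rw [hcompl] at h4 h4'
    simp only [Bool.not_false, Bool.not_true] at h5 h5' ⊢
    set x : ℝ := ((A false i).card : ℝ) / N with hx
    set y : ℝ := ((A true i).card : ℝ) / N with hy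
    have e1 : ((N : ℝ) - (A false i).card) / N = 1 - x := by
      rw [sub_div, div_self hNR.ne']
    have e2 : ((N : ℝ) - (A true i).card) / N = 1 - y := by
      rw [sub_div, div_self hNR.ne']
    rw [e1] at h4
    rw [e2] at h4'
    have e3 : 4 - 2 * ((A false i).card : ℝ) / N - 2 * ((A true i).card : ℝ) / N - 4 * ε =
        4 - 2 * x - 2 * y - 4 * ε := by
      rw [hx, hy]; ring
    rw [e3]
    have e4 : 0 ≤ (x - y) ^ 2 * m := by positivity
    have e5 : (4 - 2 * x - 2 * y - 4 * ε) * m =
        ((1 - x) * (1 - x) - ε) * m + ((1 - y) * (1 - y) - ε) * m + (m - (x * y + ε) * m) +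
        (m - (y * x + ε) * m) - (x - y) ^ 2 * m := by ring
    rw [e5]
    linarith
  have hsum := sum_le_sum fun i (_ : i ∈ (univ : Finset (Fin a))) => hT i
  rw [sum_add_distrib, sum_add_distrib, sum_add_distrib] at hsum
  have h7 : ∑ i : Fin a,
      (4 - 2 * ((A false i).card : ℝ) / N - 2 * ((A true i).card : ℝ) / N - 4 * ε) * m =
      (4 * a - 4 * b - 4 * ε * a) * m := by
    rw [← sum_mul]
    congr 1
    rw [sum_sub_distrib, sum_sub_distrib, sum_sub_distrib, sum_const, sum_const, card_univ,
      Fintype.card_fin, nsmul_eq_mul, nsmul_eq_mul, ← sum_div, ← sum_div, ← mul_sum, ← mul_sum,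
      hsumA, hsumA]
    field_simp
    ring
  rw [h7] at hsum
  have h8 : (4 * a - 4 * b - 4 * ε * a) * m ≤ (6 * b + 4 * ε * a) * (m : ℝ) := by
    have t1 := hT1 false
    have t2 := hT1 true
    have t3 := hT2 false
    have t4 := hT2 true
    have : (6 * b + 4 * ε * a) * (m : ℝ) = (m * b + a * (ε * m)) + (m * b + a * (ε * m)) +
        (2 * (m * b) + a * (ε * m)) + (2 * (m * b) + a * (ε * m)) := by ring
    rw [this]
    linarith
  have h9 := le_of_mul_le_mul_right h8 hmR
  linarith

/-- For every `g` and `δ > 0` some bipartite graph with minimum degree `2` and girth at least `g`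
has fractional domatic number at most `5/2 + δ`. -/
theorem exists_graph (g : ℕ) (δ : ℝ) (hδ : 0 < δ) :
    ∃ (V : Type) (_ : Fintype V) (G : SimpleGraph V),
      G.Colorable 2 ∧ InClass g G ∧ fdom G ≤ 5 / 2 + δ := by
  obtain ⟨ε, hε0, hε1, hε2⟩ : ∃ ε : ℝ, 0 < ε ∧ ε ≤ 1 / 4 ∧ 5 ≤ (2 - 4 * ε) * (5 / 2 + δ) := by
    refine ⟨min (1 / 4) (δ / (4 * (5 / 2 + δ))), ?_, min_le_left _ _, ?_⟩
    · apply lt_min (by norm_num)
      positivity
    · have h1 : min (1 / 4) (δ / (4 * (5 / 2 + δ))) ≤ δ / (4 * (5 / 2 + δ)) := min_le_right _ _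
      have h2 : min (1 / 4) (δ / (4 * (5 / 2 + δ))) * (4 * (5 / 2 + δ)) ≤ δ := by
        rw [le_div_iff₀ (by positivity)] at h1
        exact h1
      nlinarith
  obtain ⟨N, m, e, hm, hgN, hN, h1, h2, h3⟩ := exists_rect ε hε0 (by linarith) (g + 3)
  have : Nonempty (SV (Fin N) (kk (g + 3) e)) := ⟨.inl ⟨0, hN⟩⟩
  refine ⟨SV (Fin N) (kk (g + 3) e) × Bool, inferInstance, DC (SG (kk (g + 3) e) (en e)),
    dc_colorable _, ⟨?_, ?_⟩, ?_⟩
  · have h4 := minDeg e (by omega : 2 ≤ g + 3) hN
    have h5 := dc_minDegree (SG (kk (g + 3) e) (en e))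
    rw [h4] at h5
    convert h5
  · refine le_trans ?_ (dc_girth e hgN)
    exact_mod_cast Nat.le_add_right g 3
  · apply csSup_le ⟨1, one_mem _⟩
    rintro x ⟨a, b, hb, -, ⟨φ, hφ⟩, rfl⟩
    have h4 := colouring e ε hm hN h1 h2 h3 a b φ hφ
    have hbR : (0 : ℝ) < b := by exact_mod_cast hb
    rw [div_le_iff₀ hbR]
    have h5 : (0 : ℝ) < 2 - 4 * ε := by linarith
    have h6 : (2 - 4 * ε) * a ≤ (2 - 4 * ε) * ((5 / 2 + δ) * b) := by
      calc (2 - 4 * ε) * a ≤ 5 * b := h4
        _ ≤ ((2 - 4 * ε) * (5 / 2 + δ)) * b := mul_le_mul_of_nonneg_right hε2 hbR.le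
        _ = _ := by ring
    exact le_of_mul_le_mul_left h6 h5

lemma set_bdd (g : ℕ) : BddBelow {x : ℝ | ∃ (V : Type) (_ : Fintype V) (G : SimpleGraph V),
    G.Colorable 2 ∧ InClass g G ∧ x = fdom G} := by
  refine ⟨1, ?_⟩
  rintro x ⟨V, _, G, -, hG, rfl⟩
  exact one_le_fdom G g hG

lemma set_nonempty (g : ℕ) : {x : ℝ | ∃ (V : Type) (_ : Fintype V) (G : SimpleGraph V),
    G.Colorable 2 ∧ InClass g G ∧ x = fdom G}.Nonempty := by
  obtain ⟨V, hV, G, hc, hG, -⟩ := exists_graph g 1 one_pos
  exact ⟨_, V, hV, G, hc, hG, rfl⟩

theorem infBip_le (g : ℕ) : infBip g ≤ 5 / 2 := by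
  apply le_of_forall_pos_le_add
  intro δ hδ
  obtain ⟨V, hV, G, hc, hG, h⟩ := exists_graph g δ hδ
  exact (csInf_le (set_bdd g) ⟨V, hV, G, hc, hG, rfl⟩).trans h

theorem infBip_mono : Monotone infBip := by
  intro g g' hgg
  apply csInf_le_csInf (set_bdd g) (set_nonempty g')
  rintro x ⟨V, hV, G, hc, hG, rfl⟩
  refine ⟨V, hV, G, hc, ⟨hG.1, le_trans ?_ hG.2⟩, rfl⟩
  exact_mod_cast hgg

/-- **Bipartite graphs of large girth.** For every `g` and `δ > 0` some finite bipartite graph with
minimum degree `2` and girth at least `g` has fractional domatic number at most `5/2 + δ`. So the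
infimum `infBip g` of the fractional domatic number over these bipartite graphs is at most `5/2`
for every `g`; its limit exists and is at most `5/2`. -/
theorem result :
    (∀ (g : ℕ) (δ : ℝ), 0 < δ → ∃ (V : Type) (_ : Fintype V) (G : SimpleGraph V),
      G.Colorable 2 ∧ InClass g G ∧ fdom G ≤ 5 / 2 + δ) ∧
    (∀ g, infBip g ≤ 5 / 2) ∧ Monotone infBip ∧
    ∃ L : ℝ, Tendsto infBip atTop (nhds L) ∧ L ≤ 5 / 2 := by
  refine ⟨exists_graph, infBip_le, infBip_mono, ⨆ g, infBip g, ?_, ciSup_le infBip_le⟩
  exact tendsto_atTop_ciSup infBip_mono ⟨5 / 2, by rintro x ⟨g, rfl⟩; exact infBip_le g⟩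

end Pool.Agent.Results.MP_cc2bbb_co.BipartiteGraphs
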